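import Pool.Agent.H41.AB.Lat

/-!
# The semigroup of valuations in every dimension: upper bound for the number of points in degree one

Let `S k`, `k ≥ 1`, be finite sets of integer points of `n`-space, `n = m + 1`, with
`S j + S k ⊆ S (j + k)`, generating `ℤ^n`, with `card (S k) = V k ^ n + o(k ^ n)`.  If
`S 1` is contained in the box `∏ i, [0, β i]`, then
`card (S 1) ≤ V + ∑ i, ∏ j ≠ i, (β j + 1)`.
This is (a part of) the theorem of Khovanskii and Lazarsfeld-Mustata (`n = 3`: `H20/OG/Okb`).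
-/

set_option autoImplicit false

open MeasureTheory Set Filter Topology Pointwise

namespace Pool.AB4.Okb

variable {m : ℕ}

/-- the real point -/
def emb (s : Fin (m + 1) → ℤ) : Fin (m + 1) → ℝ := fun j => ((s j : ℤ) : ℝ)

theorem emb_injective : Function.Injective (emb (m := m)) := by
  intro a b h
  funext j
  have := congrFun h j
  simpa [emb] using this

/-- the semigroup -/
def semi (S : ℕ → Finset (Fin (m + 1) → ℤ))
    (hadd : ∀ j k, 0 < j → 0 < k → ∀ s ∈ S j, ∀ s' ∈ S k, s + s' ∈ S (j + k)) :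
    AddSubmonoid ((Fin (m + 1) → ℤ) × ℕ) where
  carrier := {x | x = 0 ∨ (0 < x.2 ∧ x.1 ∈ S x.2)}
  zero_mem' := Or.inl rfl
  add_mem' := by
    rintro a b ha hb
    rcases ha with rfl | ⟨ha1, ha2⟩
    · rw [zero_add]; exact hb
    · rcases hb with rfl | ⟨hb1, hb2⟩
      · rw [add_zero]; exact Or.inr ⟨ha1, ha2⟩
      · exact Or.inr ⟨by rw [Prod.snd_add]; omega, hadd _ _ ha1 hb1 _ ha2 _ hb2⟩

theorem mem_semi {S : ℕ → Finset (Fin (m + 1) → ℤ)}
    {hadd : ∀ j k, 0 < j → 0 < k → ∀ s ∈ S j, ∀ s' ∈ S k, s + s' ∈ S (j + k)}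
    {x : (Fin (m + 1) → ℤ) × ℕ} :
    x ∈ semi S hadd ↔ x = 0 ∨ (0 < x.2 ∧ x.1 ∈ S x.2) := Iff.rfl

/-- the group of differences -/
def grp (M : AddSubmonoid ((Fin (m + 1) → ℤ) × ℕ)) : AddSubgroup ((Fin (m + 1) → ℤ) × ℤ) where
  carrier := {x | ∃ a ∈ M, ∃ b ∈ M, x = (a.1 - b.1, (a.2 : ℤ) - b.2)}
  zero_mem' := ⟨0, M.zero_mem, 0, M.zero_mem, by simp; rfl⟩
  add_mem' := by
    rintro x y ⟨a, ha, b, hb, rfl⟩ ⟨a', ha', b', hb', rfl⟩
    refine ⟨a + a', M.add_mem ha ha', b + b', M.add_mem hb hb', ?_⟩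
    refine Prod.ext ?_ ?_
    · simp only [Prod.mk_add_mk, Prod.fst_add]
      abel
    · simp only [Prod.mk_add_mk, Prod.snd_add]
      push_cast
      ring
  neg_mem' := by
    rintro x ⟨a, ha, b, hb, rfl⟩
    refine ⟨b, hb, a, ha, ?_⟩
    refine Prod.ext ?_ ?_
    · simp
    · simp

/-- the semigroup generates, if it has points of degree one and, in some degree, two points with
difference the `i`-th unit vector, for every `i` -/
theorem grp_top {M : AddSubmonoid ((Fin (m + 1) → ℤ) × ℕ)} {s : Fin (m + 1) → ℤ}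
    (hs : (s, 1) ∈ M) {k : ℕ}
    (h1 : ∀ i : Fin (m + 1), ∃ u, (u, k) ∈ M ∧ ∃ v, (v, k) ∈ M ∧ u = v + Pi.single i 1)
    (x : (Fin (m + 1) → ℤ) × ℤ) : x ∈ grp M := by
  have g2 : ∀ j : Fin (m + 1), ((Pi.single j 1 : Fin (m + 1) → ℤ), (0 : ℤ)) ∈ grp M := by
    intro j
    obtain ⟨u, hu, v, hv, e⟩ := h1 j
    refine ⟨_, hu, _, hv, ?_⟩
    rw [e]
    simp
  have g4 : (s, (1 : ℤ)) ∈ grp M :=
    ⟨_, hs, 0, M.zero_mem, by simp⟩
  have e : x = x.2 • (s, (1 : ℤ)) + ∑ j, (x.1 j - x.2 * s j) •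
      ((Pi.single j 1 : Fin (m + 1) → ℤ), (0 : ℤ)) := by
    refine Prod.ext ?_ ?_
    · funext i
      rw [Prod.fst_add, Prod.fst_sum, Pi.add_apply, Finset.sum_apply,
        Finset.sum_eq_single i]
      · simp
      · intro j _ hj
        simp [Pi.single_eq_of_ne (Ne.symm hj)]
      · intro h
        exact absurd (Finset.mem_univ i) h
    · rw [Prod.snd_add, Prod.snd_sum]
      simp
  rw [e]
  exact (grp M).add_mem ((grp M).zsmul_mem g4 _)
    ((grp M).sum_mem fun j _ => (grp M).zsmul_mem (g2 j) _)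

/-- An element of the semigroup absorbing a finite set of vectors. -/
theorem absorb {M : AddSubmonoid ((Fin (m + 1) → ℤ) × ℕ)}
    (hM : ∀ x : (Fin (m + 1) → ℤ) × ℤ, x ∈ grp M) (B : Finset ((Fin (m + 1) → ℤ) × ℤ)) :
    ∃ w ∈ M, ∀ x ∈ B, ∃ a ∈ M, a.1 = x.1 + w.1 ∧ (a.2 : ℤ) = x.2 + w.2 := by
  classical
  induction B using Finset.induction_on with
  | empty => exact ⟨0, M.zero_mem, by simp⟩
  | insert y B hy ih =>
    obtain ⟨w, hw, h⟩ := ih
    obtain ⟨a, ha, b, hb, hab⟩ := hM y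
    refine ⟨w + b, M.add_mem hw hb, fun x hx => ?_⟩
    rcases Finset.mem_insert.1 hx with rfl | hx
    · refine ⟨a + w, M.add_mem ha hw, ?_, ?_⟩
      · rw [hab]
        simp only [Prod.fst_add]
        abel
      · rw [hab]
        simp only [Prod.snd_add]
        push_cast
        ring
    · obtain ⟨c, hc, h1, h2⟩ := h x hx
      refine ⟨c + b, M.add_mem hc hb, ?_, ?_⟩
      · rw [Prod.fst_add, Prod.fst_add, h1]
        abel
      · rw [Prod.snd_add, Prod.snd_add]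
        push_cast
        rw [h2]
        ring

/-- Integer points of `n P`, `P` the convex hull of `S 1`, are in `S (n + c)` after translation
by a fixed vector. -/
theorem translate {S : ℕ → Finset (Fin (m + 1) → ℤ)}
    (hadd : ∀ j k, 0 < j → 0 < k → ∀ s ∈ S j, ∀ s' ∈ S k, s + s' ∈ S (j + k))
    (hgrp : ∀ x : (Fin (m + 1) → ℤ) × ℤ, x ∈ grp (semi S hadd)) :
    ∃ (w : Fin (m + 1) → ℤ) (c : ℕ), ∀ n : ℕ, 0 < n → ∀ q : Fin (m + 1) → ℤ,
      (n : ℝ)⁻¹ • emb q ∈ convexHull ℝ (emb '' (S 1 : Set (Fin (m + 1) → ℤ))) →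
      q + w ∈ S (n + c) := by
  classical
  -- a bound for the coordinates
  set N : ℕ := (S 1).card with hN
  obtain ⟨R, hR0, hR⟩ : ∃ R : ℤ, 0 ≤ R ∧ ∀ s ∈ S 1, ∀ j, |s j| ≤ R := by
    refine ⟨∑ s ∈ S 1, ∑ j, |s j|, Finset.sum_nonneg fun s _ => by positivity,
      fun s hs j => ?_⟩
    have h := Finset.single_le_sum (f := fun s : Fin (m + 1) → ℤ => ∑ j, |s j|)
      (fun s _ => by positivity) hs
    have h1 := Finset.single_le_sum (f := fun j => |s j|) (fun j _ => abs_nonneg _)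
      (Finset.mem_univ j)
    exact h1.trans h
  let I : Finset ℤ := Finset.Icc (-(N * R)) (N * R)
  let B : Finset ((Fin (m + 1) → ℤ) × ℤ) :=
    (Fintype.piFinset fun _ => I) ×ˢ Finset.Icc 0 (N : ℤ)
  obtain ⟨w, hw, habs⟩ := absorb hgrp B
  refine ⟨w.1, w.2, fun n hn q hq => ?_⟩
  have himg : emb '' (S 1 : Set (Fin (m + 1) → ℤ)) =
      ((S 1).image emb : Finset (Fin (m + 1) → ℝ)) := by
    rw [Finset.coe_image]
  rw [himg, Finset.mem_convexHull'] at hq
  obtain ⟨f, hf0, hf1, hfq⟩ := hq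
  rw [Finset.sum_image (fun a _ b _ h => emb_injective h)] at hf1 hfq
  have hn' : (0 : ℝ) < n := by exact_mod_cast hn
  let g : (Fin (m + 1) → ℤ) → ℝ := fun s => n * f (emb s)
  have hg0 : ∀ s ∈ S 1, 0 ≤ g s := fun s hs =>
    mul_nonneg hn'.le (hf0 _ (Finset.mem_image_of_mem _ hs))
  have hg1 : ∑ s ∈ S 1, g s = n := by
    simp only [g]
    rw [← Finset.mul_sum, hf1, mul_one]
  have hgq : ∑ s ∈ S 1, g s • emb s = emb q := by
    simp only [g]
    have : ∑ s ∈ S 1, ((n : ℝ) * f (emb s)) • emb s =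
        (n : ℝ) • ∑ s ∈ S 1, f (emb s) • emb s := by
      rw [Finset.smul_sum]
      exact Finset.sum_congr rfl fun s _ => by rw [mul_smul]
    rw [this, hfq, smul_smul, mul_inv_cancel₀ hn'.ne', one_smul]
  let u : (Fin (m + 1) → ℤ) → ℕ := fun s => ⌊g s⌋₊
  have hu1 : ∀ s ∈ S 1, (u s : ℝ) ≤ g s := fun s hs => Nat.floor_le (hg0 s hs)
  have hu2 : ∀ s ∈ S 1, g s ≤ u s + 1 := fun s _ => (Nat.lt_floor_add_one _).le
  let r : Fin (m + 1) → ℤ := q - ∑ s ∈ S 1, u s • s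
  let j : ℤ := n - ∑ s ∈ S 1, (u s : ℤ)
  -- coordinates
  have cast1 : ∀ i, ((r i : ℤ) : ℝ) = ∑ s ∈ S 1, (g s - u s) * ((s i : ℤ) : ℝ) := by
    intro i
    have h1 := congrFun hgq i
    rw [Finset.sum_apply] at h1
    simp only [Pi.smul_apply, emb, smul_eq_mul] at h1
    have h2 : r i = q i - ∑ s ∈ S 1, (u s : ℤ) * s i := by
      have h3 : ∀ s : Fin (m + 1) → ℤ, (u s : ℤ) * s i = (u s • s) i := fun s => by
        rw [Pi.smul_apply, nsmul_eq_mul]
      rw [Finset.sum_congr rfl fun s _ => h3 s]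
      simp only [r, Pi.sub_apply, Finset.sum_apply]
    rw [h2]
    push_cast
    rw [← h1, ← Finset.sum_sub_distrib]
    exact Finset.sum_congr rfl fun s _ => by ring
  have cast4 : (j : ℝ) = ∑ s ∈ S 1, (g s - u s) := by
    simp only [j]
    push_cast
    rw [Finset.sum_sub_distrib, hg1]
  have bound : ∀ F : (Fin (m + 1) → ℤ) → ℤ, (∀ s ∈ S 1, |F s| ≤ R) → ∀ z : ℤ,
      (z : ℝ) = ∑ s ∈ S 1, (g s - u s) * F s → z ∈ I := by
    intro F hF z hz
    have h1 : |(z : ℝ)| ≤ N * R := by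
      rw [hz]
      refine (Finset.abs_sum_le_sum_abs _ _).trans ?_
      have : ∑ s ∈ S 1, |(g s - u s) * F s| ≤ ∑ s ∈ S 1, (R : ℝ) := by
        refine Finset.sum_le_sum fun s hs => ?_
        rw [abs_mul]
        have e1 : |g s - u s| ≤ 1 := by
          rw [abs_le]
          constructor <;> linarith [hu1 s hs, hu2 s hs]
        have e2 : |(F s : ℝ)| ≤ R := by exact_mod_cast hF s hs
        calc |g s - u s| * |(F s : ℝ)| ≤ 1 * R := by
              apply mul_le_mul e1 e2 (abs_nonneg _) zero_le_one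
          _ = R := one_mul _
      refine this.trans ?_
      rw [Finset.sum_const, nsmul_eq_mul]
    have h2 : |z| ≤ N * R := by exact_mod_cast h1
    exact Finset.mem_Icc.2 (abs_le.1 h2)
  have hB : (r, j) ∈ B := by
    refine Finset.mem_product.2 ⟨Fintype.mem_piFinset.2 fun i => ?_, ?_⟩
    · exact bound (fun s => s i) (fun s hs => hR s hs i) _ (cast1 i)
    · have h1 : (0 : ℝ) ≤ j := by
        rw [cast4]
        exact Finset.sum_nonneg fun s hs => by linarith [hu1 s hs]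
      have h2 : (j : ℝ) ≤ N := by
        rw [cast4]
        calc ∑ s ∈ S 1, (g s - u s) ≤ ∑ s ∈ S 1, (1 : ℝ) :=
              Finset.sum_le_sum fun s hs => by linarith [hu2 s hs]
          _ = N := by rw [Finset.sum_const, nsmul_eq_mul, mul_one]
      exact Finset.mem_Icc.2 ⟨by exact_mod_cast h1, by exact_mod_cast h2⟩
  obtain ⟨a, ha, hm1, hm2⟩ := habs _ hB
  -- the sum
  have hsum : (∑ s ∈ S 1, u s • ((s, 1) : (Fin (m + 1) → ℤ) × ℕ)) ∈ semi S hadd := by
    refine AddSubmonoid.sum_mem _ fun s hs => AddSubmonoid.nsmul_mem _ ?_ _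
    exact Or.inr ⟨Nat.one_pos, hs⟩
  have htot := (semi S hadd).add_mem hsum ha
  have e1 : ((∑ s ∈ S 1, u s • ((s, 1) : (Fin (m + 1) → ℤ) × ℕ)) + a).1 = q + w.1 := by
    rw [Prod.fst_add, hm1, Prod.fst_sum]
    simp only [Prod.smul_fst, r]
    abel
  have e2 : ((∑ s ∈ S 1, u s • ((s, 1) : (Fin (m + 1) → ℤ) × ℕ)) + a).2 = n + w.2 := by
    have h3 : (((∑ s ∈ S 1, u s • ((s, 1) : (Fin (m + 1) → ℤ) × ℕ)) + a).2 : ℤ) =
        ((n + w.2 : ℕ) : ℤ) := by
      rw [Prod.snd_add, Prod.snd_sum]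
      push_cast
      rw [hm2]
      simp only [j]
      push_cast
      simp only [Prod.smul_snd, smul_eq_mul, mul_one]
      push_cast
      ring
    exact_mod_cast h3
  rcases mem_semi.1 htot with h0 | ⟨_, h0⟩
  · exfalso
    rw [h0] at e2
    simp at e2
    omega
  · rw [e1, e2] at h0
    exact h0

theorem volume_le {S : ℕ → Finset (Fin (m + 1) → ℤ)}
    (hadd : ∀ j k, 0 < j → 0 < k → ∀ s ∈ S j, ∀ s' ∈ S k, s + s' ∈ S (j + k))
    (hgrp : ∀ x : (Fin (m + 1) → ℤ) × ℤ, x ∈ grp (semi S hadd)) {V : ℝ}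
    (hV : Tendsto (fun k : ℕ => ((S k).card : ℝ) / (k : ℝ) ^ (m + 1)) atTop (𝓝 V)) :
    (volume (convexHull ℝ (emb '' (S 1 : Set (Fin (m + 1) → ℤ))))).toReal ≤ V := by
  classical
  obtain ⟨w, c, hwc⟩ := translate hadd hgrp
  set P : Set (Fin (m + 1) → ℝ) := convexHull ℝ (emb '' (S 1 : Set (Fin (m + 1) → ℤ))) with hP
  have hfin : (emb '' (S 1 : Set (Fin (m + 1) → ℤ))).Finite := (S 1).finite_toSet.image _
  have hPc : IsCompact P := hfin.isCompact_convexHull ℝ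
  have hPconv : Convex ℝ P := convex_convexHull ℝ _
  have hlim := tendsto_card_div_pow_atTop_volume P hPc.isBounded hPc.measurableSet
    (hPconv.addHaar_frontier volume)
  have hcard : ∀ n : ℕ, 0 < n → (Nat.card ↑(P ∩ (n : ℝ)⁻¹ •
      (Submodule.span ℤ (Set.range (Pi.basisFun ℝ (Fin (m + 1)))) :
        Set (Fin (m + 1) → ℝ))) : ℝ) ≤ (S (n + c)).card := by
    intro n hn
    have hn' : (0 : ℝ) < n := by exact_mod_cast hn
    have : NeZero n := ⟨hn.ne'⟩
    have key : ∀ v ∈ P ∩ (n : ℝ)⁻¹ •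
        (Submodule.span ℤ (Set.range (Pi.basisFun ℝ (Fin (m + 1)))) : Set (Fin (m + 1) → ℝ)),
        ∀ i, ((⌊(n : ℝ) * v i⌋ : ℤ) : ℝ) = n * v i := by
      intro v hv i
      have h1 := (BoxIntegral.unitPartition.mem_smul_span_iff (n := n)).1 hv.2 i
      obtain ⟨z, hz⟩ := h1
      rw [← hz]
      simp
    let φ : ↑(P ∩ (n : ℝ)⁻¹ •
        (Submodule.span ℤ (Set.range (Pi.basisFun ℝ (Fin (m + 1)))) :
          Set (Fin (m + 1) → ℝ))) → ↥(S (n + c)) := fun v =>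
      ⟨(fun i => ⌊(n : ℝ) * v.1 i⌋) + w, by
        refine hwc n hn _ ?_
        have h1 := v.2.1
        have h2 : (n : ℝ)⁻¹ • emb (fun i => ⌊(n : ℝ) * v.1 i⌋) = v.1 := by
          funext i
          simp only [emb, Pi.smul_apply, smul_eq_mul]
          rw [key _ v.2 i, ← mul_assoc, inv_mul_cancel₀ hn'.ne', one_mul]
        rw [h2]
        exact h1⟩
    have hφ : Function.Injective φ := by
      intro v v' h
      have h1 : (fun i => ⌊(n : ℝ) * v.1 i⌋) = (fun i => ⌊(n : ℝ) * v'.1 i⌋) :=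
        add_right_cancel (Subtype.ext_iff.1 h)
      apply Subtype.ext
      funext i
      apply mul_left_cancel₀ hn'.ne'
      rw [← key _ v.2 i, ← key _ v'.2 i]
      exact congrArg _ (congrFun h1 i)
    have h3 := Nat.card_le_card_of_injective φ hφ
    rw [Nat.card_eq_fintype_card (α := ↥(S (n + c))), Fintype.card_coe] at h3
    exact_mod_cast h3
  have hlim2 : Tendsto (fun n : ℕ => ((S (n + c)).card : ℝ) / (n : ℝ) ^ (m + 1)) atTop (𝓝 V) := by
    have h1 : Tendsto (fun n : ℕ => ((S (n + c)).card : ℝ) / ((n + c : ℕ) : ℝ) ^ (m + 1)) atTop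
        (𝓝 V) := hV.comp (tendsto_add_atTop_nat c)
    have h2 : Tendsto (fun n : ℕ => (((n + c : ℕ) : ℝ) / n) ^ (m + 1)) atTop
        (𝓝 (1 ^ (m + 1))) := by
      apply Tendsto.pow
      have h3 : Tendsto (fun n : ℕ => 1 + (c : ℝ) / n) atTop (𝓝 (1 + 0)) :=
        tendsto_const_nhds.add (tendsto_const_div_atTop_nhds_zero_nat (c : ℝ))
      rw [add_zero] at h3
      refine h3.congr' ?_
      filter_upwards [eventually_gt_atTop 0] with n hn
      have hn' : (n : ℝ) ≠ 0 := by exact_mod_cast hn.ne'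
      push_cast
      field_simp
    have h4 := h1.mul h2
    rw [one_pow, mul_one] at h4
    refine h4.congr' ?_
    filter_upwards [eventually_gt_atTop 0] with n hn
    have hn' : (n : ℝ) ≠ 0 := by exact_mod_cast hn.ne'
    have hn2 : ((n + c : ℕ) : ℝ) ≠ 0 := by exact_mod_cast (by omega : n + c ≠ 0)
    rw [div_pow]
    field_simp
  have hfinal : volume.real P ≤ V := by
    refine le_of_tendsto_of_tendsto hlim hlim2 ?_
    filter_upwards [eventually_gt_atTop 0] with n hn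
    have hn' : (0 : ℝ) < n := by exact_mod_cast hn
    rw [Fintype.card_fin]
    exact div_le_div_of_nonneg_right (hcard n hn) (by positivity)
  exact hfinal

end Pool.AB4.Okb

namespace Pool.AB4

open Pool.AB4.Okb

/-- The upper bound for the number of points in degree one, in a box. -/
theorem points_le (n : ℕ) (S : ℕ → Finset (Fin (n + 1) → ℤ))
    (hadd : ∀ j k, 0 < j → 0 < k → ∀ u ∈ S j, ∀ v ∈ S k, u + v ∈ S (j + k))
    (hgen : ∃ k, 0 < k ∧ ∀ i, ∃ u ∈ S k, ∃ v ∈ S k, u = v + Pi.single i 1) {V : ℝ}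
    (hV : Filter.Tendsto (fun k : ℕ => ((S k).card : ℝ) / (k : ℝ) ^ (n + 1)) Filter.atTop
      (nhds V))
    (β : Fin (n + 1) → ℝ) (hβ : ∀ i, 0 ≤ β i)
    (hbox : ∀ u ∈ S 1, ∀ i, (0 : ℝ) ≤ u i ∧ (u i : ℝ) ≤ β i) :
    ((S 1).card : ℝ) ≤ V + ∑ i, ∏ j ∈ Finset.univ.erase i, (β j + 1) := by
  classical
  rcases (S 1).eq_empty_or_nonempty with h0 | ⟨s, hs⟩
  · have hV0 : 0 ≤ V := ge_of_tendsto' hV fun k => by positivity
    have hnn : 0 ≤ ∑ i, ∏ j ∈ Finset.univ.erase i, (β j + 1) :=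
      Finset.sum_nonneg fun i _ => Finset.prod_nonneg fun j _ => by linarith [hβ j]
    rw [h0]
    simp only [Finset.card_empty, Nat.cast_zero]
    positivity
  obtain ⟨k, hk, g⟩ := hgen
  have hgrp : ∀ x : (Fin (n + 1) → ℤ) × ℤ, x ∈ grp (semi S hadd) := fun x =>
    grp_top (s := s) (k := k) (Or.inr ⟨Nat.one_pos, hs⟩) (fun i => by
      obtain ⟨u, hu, v, hv, e⟩ := g i
      exact ⟨u, Or.inr ⟨hk, hu⟩, v, Or.inr ⟨hk, hv⟩, e⟩) x
  have hfin : (emb '' (S 1 : Set (Fin (n + 1) → ℤ))).Finite := (S 1).finite_toSet.image _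
  have hbx : convexHull ℝ (emb '' (S 1 : Set (Fin (n + 1) → ℤ))) ⊆
      Set.pi univ fun i => Icc 0 (β i) := by
    refine convexHull_min ?_ (convex_pi fun _ _ => convex_Icc 0 _)
    rintro _ ⟨z, hz, rfl⟩ j _
    exact hbox z hz j
  have h1 := lattice_count (convex_convexHull ℝ (emb '' (S 1 : Set (Fin (n + 1) → ℤ))))
    (hfin.isCompact_convexHull ℝ) hβ (fun p hp j => hbx hp j (mem_univ j)) (S 1)
    (fun z hz => subset_convexHull ℝ _ ⟨z, hz, rfl⟩)
  have h2 := volume_le hadd hgrp hV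
  linarith

end Pool.AB4
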