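import Pool.Agent.H20.OG.Lat

/-!
# Lattice points in a convex body, in every dimension

`card S ≤ vol D + ∑ i, ∏ j ≠ i, (β j + 1)` for a finite set `S` of integer points of a compact
convex set `D` contained in the box `∏ j, [0, β j]` (`H20/OG/Lat` in dimension three, cubes).
-/

set_option autoImplicit false

open MeasureTheory Set

namespace Pool.AB4.Okb

variable {m : ℕ}

/-- thickening by a unit segment in the direction `i` -/
def thick (i : Fin (m + 1)) (P : Set (Fin (m + 1) → ℝ)) : Set (Fin (m + 1) → ℝ) :=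
  (fun q : (Fin (m + 1) → ℝ) × ℝ => q.1 + Pi.single i q.2) '' (P ×ˢ Icc (0 : ℝ) 1)

theorem mem_thick {i : Fin (m + 1)} {P : Set (Fin (m + 1) → ℝ)} {p : Fin (m + 1) → ℝ} :
    p ∈ thick i P ↔ ∃ u ∈ Icc (0 : ℝ) 1, p - Pi.single i u ∈ P := by
  constructor
  · rintro ⟨⟨x, u⟩, ⟨h1, h2⟩, rfl⟩
    exact ⟨u, h2, by simpa using h1⟩
  · rintro ⟨u, hu, h⟩
    exact ⟨(p - Pi.single i u, u), ⟨h, hu⟩, by simp⟩

theorem convex_thick {i : Fin (m + 1)} {P : Set (Fin (m + 1) → ℝ)} (hc : Convex ℝ P) :
    Convex ℝ (thick i P) := by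
  rintro p hp q hq s t hs ht hst
  obtain ⟨u, hu, hp⟩ := mem_thick.1 hp
  obtain ⟨v, hv, hq⟩ := mem_thick.1 hq
  refine mem_thick.2 ⟨s * u + t * v, ?_, ?_⟩
  · exact (convex_Icc (0 : ℝ) 1) hu hv hs ht hst
  · have h := hc hp hq hs ht hst
    have e : s • p + t • q - Pi.single i (s * u + t * v) =
        s • (p - Pi.single i u) + t • (q - Pi.single i v) := by
      funext j
      by_cases hj : j = i
      · subst hj
        simp only [Pi.sub_apply, Pi.add_apply, Pi.smul_apply, smul_eq_mul, Pi.single_eq_same]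
        ring
      · simp only [Pi.sub_apply, Pi.add_apply, Pi.smul_apply, smul_eq_mul,
          Pi.single_eq_of_ne hj]
        ring
    rw [e]
    exact h

theorem compact_thick {i : Fin (m + 1)} {P : Set (Fin (m + 1) → ℝ)} (hk : IsCompact P) :
    IsCompact (thick i P) := by
  refine (hk.prod isCompact_Icc).image ?_
  refine continuous_fst.add ?_
  exact (continuous_single i).comp continuous_snd

/-- the volume by sections -/
theorem volume_sec (i : Fin (m + 1)) {P : Set (Fin (m + 1) → ℝ)} (hP : MeasurableSet P) :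
    volume P = ∫⁻ y : Fin m → ℝ, volume {x : ℝ | (i.insertNth x y : Fin (m + 1) → ℝ) ∈ P} := by
  have h1 := (volume_preserving_piFinSuccAbove (fun _ : Fin (m + 1) => ℝ) i).symm
    (MeasurableEquiv.piFinSuccAbove (fun _ : Fin (m + 1) => ℝ) i)
  rw [← h1.measure_preimage hP.nullMeasurableSet, Measure.volume_eq_prod,
    Measure.prod_apply_symm (h1.measurable hP)]
  rfl

theorem volume_thick {i : Fin (m + 1)} {P : Set (Fin (m + 1) → ℝ)} (hc : Convex ℝ P)
    (hk : IsCompact P) {R : Fin (m + 1) → ℝ} (hR : ∀ j, 0 ≤ R j)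
    (hPB : ∀ p ∈ P, ∀ j, p j ∈ Icc 0 (R j)) :
    volume (thick i P) ≤ volume P + ENNReal.ofReal (∏ j ∈ Finset.univ.erase i, R j) := by
  classical
  have hk2 : IsCompact (thick i P) := compact_thick hk
  set B : Set (Fin m → ℝ) := Icc (fun _ => 0) (fun j => R (i.succAbove j)) with hB
  have hBm : MeasurableSet B := measurableSet_Icc
  have e4 : ∏ j ∈ Finset.univ.erase i, R j = ∏ j : Fin m, R (i.succAbove j) := by
    have h1 : Finset.univ.erase i = Finset.univ.image i.succAbove := by
      rw [Fin.image_succAbove_univ]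
      ext j
      simp
    rw [h1, Finset.prod_image fun a _ b _ h => Fin.succAbove_right_injective h]
  have e3 : ENNReal.ofReal (∏ j ∈ Finset.univ.erase i, R j) =
      ∫⁻ y : Fin m → ℝ, B.indicator 1 y := by
    rw [lintegral_indicator_one hBm, hB, Real.volume_Icc_pi, e4]
    simp only [sub_zero]
    exact ENNReal.ofReal_prod_of_nonneg fun j _ => hR _
  rw [volume_sec i hk2.measurableSet, volume_sec i hk.measurableSet, e3,
    ← lintegral_add_right _ (measurable_one.indicator hBm)]
  refine lintegral_mono fun y => ?_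
  have hsec : {x : ℝ | (i.insertNth x y : Fin (m + 1) → ℝ) ∈ thick i P} =
      {x : ℝ | ∃ u ∈ Icc (0 : ℝ) 1, x - u ∈
        {x : ℝ | (i.insertNth x y : Fin (m + 1) → ℝ) ∈ P}} := by
    ext x
    simp only [mem_ofPred_eq, mem_thick]
    refine exists_congr fun u => and_congr_right fun _ => ?_
    have e : (i.insertNth x y : Fin (m + 1) → ℝ) - Pi.single i u =
        (i.insertNth (x - u) y : Fin (m + 1) → ℝ) := by
      funext j
      refine Fin.succAboveCases i ?_ (fun j => ?_) j
      · simp
      · simp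
    rw [e]
  by_cases hy : y ∈ B
  · rw [indicator_of_mem hy, hsec]
    refine Pool.Agent.H20.OG.interval_thick ?_ ?_
    · intro a ha b hb s t hs ht hst
      have h := hc (show (i.insertNth a y : Fin (m + 1) → ℝ) ∈ P from ha)
        (show (i.insertNth b y : Fin (m + 1) → ℝ) ∈ P from hb) hs ht hst
      have e : s • (i.insertNth a y : Fin (m + 1) → ℝ) + t • (i.insertNth b y) =
          (i.insertNth (s • a + t • b) y : Fin (m + 1) → ℝ) := by
        funext j
        refine Fin.succAboveCases i ?_ (fun j => ?_) j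
        · simp
        · simp only [Pi.add_apply, Pi.smul_apply, Fin.insertNth_apply_succAbove, smul_eq_mul]
          rw [← add_mul, hst, one_mul]
      rw [e] at h
      exact h
    · have h : {x : ℝ | (i.insertNth x y : Fin (m + 1) → ℝ) ∈ P} ⊆
          (fun p : Fin (m + 1) → ℝ => p i) '' P := by
        intro x hx
        exact ⟨_, hx, by simp⟩
      exact (hk.image (continuous_apply i)).isBounded.subset h
  · have h : {x : ℝ | (i.insertNth x y : Fin (m + 1) → ℝ) ∈ thick i P} = ∅ := by
      rw [hsec]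
      ext x
      simp only [mem_ofPred_eq, mem_empty_iff_false, iff_false]
      rintro ⟨u, _, h⟩
      apply hy
      constructor
      · intro j
        have := (hPB _ h (i.succAbove j)).1
        simpa using this
      · intro j
        have := (hPB _ h (i.succAbove j)).2
        simpa using this
    rw [h]
    simp

/-- thickening in the directions of `s` -/
def tk (s : Finset (Fin (m + 1))) (D : Set (Fin (m + 1) → ℝ)) : Set (Fin (m + 1) → ℝ) :=
  {x | ∃ p ∈ D, ∀ j, (j ∈ s → x j - p j ∈ Icc (0 : ℝ) 1) ∧ (j ∉ s → x j = p j)}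

theorem tk_empty (D : Set (Fin (m + 1) → ℝ)) : tk ∅ D = D := by
  ext x
  constructor
  · rintro ⟨p, hp, h⟩
    have : x = p := funext fun j => (h j).2 (Finset.notMem_empty j)
    rwa [this]
  · intro hx
    exact ⟨x, hx, fun j => ⟨fun h => absurd h (Finset.notMem_empty j), fun _ => rfl⟩⟩

theorem tk_insert {s : Finset (Fin (m + 1))} {i : Fin (m + 1)} (hi : i ∉ s)
    (D : Set (Fin (m + 1) → ℝ)) : tk (insert i s) D = thick i (tk s D) := by
  ext x
  rw [mem_thick]
  constructor
  · rintro ⟨p, hp, h⟩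
    refine ⟨x i - p i, (h i).1 (Finset.mem_insert_self i s), p, hp, fun j => ⟨fun hj => ?_,
      fun hj => ?_⟩⟩
    · have hji : j ≠ i := fun e => hi (e ▸ hj)
      simpa [Pi.single_eq_of_ne hji] using (h j).1 (Finset.mem_insert_of_mem hj)
    · by_cases hji : j = i
      · subst hji
        simp
      · simpa [Pi.single_eq_of_ne hji] using
          (h j).2 (fun h' => (Finset.mem_insert.1 h').elim hji hj)
  · rintro ⟨u, hu, p, hp, h⟩
    refine ⟨p, hp, fun j => ⟨fun hj => ?_, fun hj => ?_⟩⟩
    · by_cases hji : j = i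
      · subst hji
        have h1 := (h j).2 hi
        simp only [Pi.sub_apply, Pi.single_eq_same] at h1
        have h2 : x j - p j = u := by linarith
        rw [h2]
        exact hu
      · have h1 := (h j).1 ((Finset.mem_insert.1 hj).resolve_left hji)
        simpa [Pi.single_eq_of_ne hji] using h1
    · have hji : j ≠ i := fun e => hj (e ▸ Finset.mem_insert_self i s)
      have h1 := (h j).2 (fun h' => hj (Finset.mem_insert_of_mem h'))
      simpa [Pi.single_eq_of_ne hji] using h1

theorem tk_volume {D : Set (Fin (m + 1) → ℝ)} (hc : Convex ℝ D) (hk : IsCompact D)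
    {β : Fin (m + 1) → ℝ} (hβ : ∀ j, 0 ≤ β j) (hbox : ∀ p ∈ D, ∀ j, p j ∈ Icc 0 (β j))
    (s : Finset (Fin (m + 1))) :
    Convex ℝ (tk s D) ∧ IsCompact (tk s D) ∧
      volume (tk s D) ≤ volume D +
        ∑ i ∈ s, ENNReal.ofReal (∏ j ∈ Finset.univ.erase i, (β j + 1)) := by
  classical
  induction s using Finset.induction_on with
  | empty =>
    rw [tk_empty]
    exact ⟨hc, hk, by simp⟩
  | insert i s hi ih =>
    obtain ⟨h1, h2, h3⟩ := ih
    rw [tk_insert hi]
    refine ⟨convex_thick h1, compact_thick h2, ?_⟩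
    have h4 := volume_thick (i := i) h1 h2 (R := fun j => β j + 1)
      (fun j => by linarith [hβ j]) (by
      rintro x ⟨p, hp, h⟩ j
      obtain ⟨b1, b2⟩ := hbox p hp j
      by_cases hj : j ∈ s
      · obtain ⟨c1, c2⟩ := (h j).1 hj
        exact ⟨by linarith, by linarith⟩
      · rw [(h j).2 hj]
        exact ⟨b1, by linarith⟩)
    refine h4.trans ?_
    rw [Finset.sum_insert hi]
    calc volume (tk s D) + ENNReal.ofReal (∏ j ∈ Finset.univ.erase i, (β j + 1))
        ≤ (volume D + ∑ i ∈ s, ENNReal.ofReal (∏ j ∈ Finset.univ.erase i, (β j + 1))) +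
            ENNReal.ofReal (∏ j ∈ Finset.univ.erase i, (β j + 1)) := by
          gcongr
      _ = _ := by ring

theorem lattice_count {D : Set (Fin (m + 1) → ℝ)} (hc : Convex ℝ D) (hk : IsCompact D)
    {β : Fin (m + 1) → ℝ} (hβ : ∀ j, 0 ≤ β j) (hbox : ∀ p ∈ D, ∀ j, p j ∈ Icc 0 (β j))
    (S : Finset (Fin (m + 1) → ℤ)) (hS : ∀ s ∈ S, (fun j => ((s j : ℤ) : ℝ)) ∈ D) :
    (S.card : ℝ) ≤ (volume D).toReal + ∑ i, ∏ j ∈ Finset.univ.erase i, (β j + 1) := by
  classical
  obtain ⟨_, h2, h3⟩ := tk_volume hc hk hβ hbox Finset.univ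
  let cube : (Fin (m + 1) → ℤ) → Set (Fin (m + 1) → ℝ) := fun s =>
    Set.pi univ fun j => Ico ((s j : ℤ) : ℝ) ((s j : ℤ) + 1)
  have hcm : ∀ s, MeasurableSet (cube s) := fun s =>
    MeasurableSet.univ_pi fun j => measurableSet_Ico
  have hcv : ∀ s, volume (cube s) = 1 := fun s => by
    simp only [cube]
    rw [Real.volume_pi_Ico]
    simp
  have hfl : ∀ (n : ℤ) (x : ℝ), x ∈ Ico (n : ℝ) (n + 1) → ⌊x⌋ = n := fun n x hx => by
    rw [Int.floor_eq_iff]
    exact hx
  have hdis : (S : Set (Fin (m + 1) → ℤ)).PairwiseDisjoint cube := by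
    intro s _ t _ hst
    rw [Function.onFun, Set.disjoint_left]
    rintro p hp hq
    apply hst
    funext j
    exact (hfl _ _ (hp j (mem_univ j))).symm.trans (hfl _ _ (hq j (mem_univ j)))
  have hsub : (⋃ s ∈ S, cube s) ⊆ tk Finset.univ D := by
    intro p hp
    simp only [mem_iUnion] at hp
    obtain ⟨s, hs, hps⟩ := hp
    refine ⟨_, hS s hs, fun j => ⟨fun _ => ?_, fun h => absurd (Finset.mem_univ j) h⟩⟩
    have h := hps j (mem_univ j)
    constructor
    · linarith [h.1]
    · linarith [h.2]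
  have hcard : (S.card : ENNReal) ≤ volume (tk Finset.univ D) := by
    have h := measure_biUnion_finset (μ := volume) hdis (fun s _ => hcm s)
    have h2 : volume (⋃ s ∈ S, cube s) = S.card := by
      rw [h, Finset.sum_congr rfl fun s _ => hcv s]
      simp
    rw [← h2]
    exact measure_mono hsub
  have hfin : volume D ≠ ⊤ := hk.measure_lt_top.ne
  have h := hcard.trans h3
  have hnn : ∀ i ∈ Finset.univ, 0 ≤ ∏ j ∈ Finset.univ.erase i, (β j + 1) := fun i _ =>
    Finset.prod_nonneg fun j _ => by linarith [hβ j]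
  rw [← ENNReal.ofReal_sum_of_nonneg hnn] at h
  have h5 := ENNReal.toReal_mono (by finiteness) h
  rw [ENNReal.toReal_add hfin (by finiteness),
    ENNReal.toReal_ofReal (Finset.sum_nonneg hnn), ENNReal.toReal_natCast] at h5
  exact h5

end Pool.AB4.Okb
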